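import Pool.Agent.Helper43.RS.Spec

/-!
# Smooth affine curves with infinitely many automorphisms (given the places at infinity)
-/

namespace Pool.Agent.Helper43.RS

open scoped Polynomial

/-- one place -/
structure CURVE_Val {O : Type} [CommRing O] [Algebra ℂ O] (w : O → ℤ) : Prop where
  dom : IsDomain O
  mul : ∀ f g : O, f ≠ 0 → g ≠ 0 → w (f * g) = w f + w g
  add : ∀ f g : O, f ≠ 0 → g ≠ 0 → f + g ≠ 0 → min (w f) (w g) ≤ w (f + g)
  const : ∀ c : ℂ, c ≠ 0 → w (algebraMap ℂ O c) = 0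
  res : ∀ f g : O, f ≠ 0 → g ≠ 0 → w f = w g →
    ∃ c : ℂ, c ≠ 0 ∧ (f - c • g = 0 ∨ w f < w (f - c • g))

section val

variable {O : Type} [CommRing O] [Algebra ℂ O] {w : O → ℤ}

theorem CURVE_smul_ne (hw : CURVE_Val w) {c : ℂ} (hc : c ≠ 0) {f : O} (hf : f ≠ 0) :
    c • f ≠ 0 := by
  have := hw.dom
  rw [Algebra.smul_def]
  exact mul_ne_zero ((map_ne_zero _).2 hc) hf

theorem CURVE_w_smul (hw : CURVE_Val w) {c : ℂ} (hc : c ≠ 0) {f : O} (hf : f ≠ 0) :
    w (c • f) = w f := by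
  have := hw.dom
  rw [Algebra.smul_def, hw.mul _ _ ((map_ne_zero _).2 hc) hf, hw.const c hc, zero_add]

/-- elements of order at least `j` -/
def CURVE_ge (hw : CURVE_Val w) (j : ℤ) : Submodule ℂ O where
  carrier := {f | f = 0 ∨ j ≤ w f}
  add_mem' := by
    rintro a b (rfl | ha) (rfl | hb)
    · left; simp
    · right; simpa using hb
    · right; simpa using ha
    · by_cases h0 : a = 0
      · subst h0; right; simpa using hb
      by_cases h1 : b = 0
      · subst h1; right; simpa using ha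
      by_cases h2 : a + b = 0
      · left; exact h2
      · right
        exact (le_min ha hb).trans (hw.add a b h0 h1 h2)
  zero_mem' := Or.inl rfl
  smul_mem' := by
    rintro c x (rfl | hx)
    · left; simp
    · by_cases hc : c = 0
      · left; simp [hc]
      by_cases h0 : x = 0
      · left; simp [h0]
      right
      rw [CURVE_w_smul hw hc h0]
      exact hx

theorem CURVE_mem_ge {hw : CURVE_Val w} {j : ℤ} {f : O} :
    f ∈ CURVE_ge hw j ↔ f = 0 ∨ j ≤ w f := Iff.rfl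

theorem CURVE_ge_mono (hw : CURVE_Val w) {i j : ℤ} (h : i ≤ j) :
    CURVE_ge hw j ≤ CURVE_ge hw i := by
  rintro f (rfl | hf)
  · exact Submodule.zero_mem _
  · exact Or.inr (h.trans hf)

theorem CURVE_smul_cancel (hw : CURVE_Val w) {c : ℂ} {f : O} (hf : f ≠ 0)
    (h : c • f ∈ CURVE_ge hw (w f + 1)) : c = 0 := by
  by_contra hc
  rcases h with h | h
  · exact CURVE_smul_ne hw hc hf h
  · rw [CURVE_w_smul hw hc hf] at h
    omega

theorem CURVE_add_high (hw : CURVE_Val w) {f h : O} (hf : f ≠ 0)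
    (hh : h ∈ CURVE_ge hw (w f + 1)) : f + h ≠ 0 ∧ w (f + h) = w f := by
  have hne : f + h ≠ 0 := by
    intro h0
    have h1 : h = (-1 : ℂ) • f := by
      rw [neg_smul, one_smul]
      exact eq_neg_of_add_eq_zero_right h0
    rw [h1] at hh
    have := CURVE_smul_cancel hw hf hh
    norm_num at this
  refine ⟨hne, ?_⟩
  rcases hh with hh | hh
  · rw [hh, add_zero]
  by_cases h0 : h = 0
  · rw [h0, add_zero]
  have h1 := hw.add f h hf h0 hne
  have h2 : w (-h) = w h := by
    have := CURVE_w_smul hw (c := -1) (by norm_num) h0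
    rwa [neg_smul, one_smul] at this
  have h3 := hw.add (f + h) (-h) hne (neg_ne_zero.2 h0) (by simpa using hf)
  rw [add_neg_cancel_right, h2] at h3
  omega

theorem CURVE_sub_high (hw : CURVE_Val w) {f h : O} (hf : f ≠ 0)
    (hh : h ∈ CURVE_ge hw (w f + 1)) : f - h ≠ 0 ∧ w (f - h) = w f := by
  rw [sub_eq_add_neg]
  exact CURVE_add_high hw hf (Submodule.neg_mem _ hh)

/-- leading coefficients -/
theorem CURVE_res (hw : CURVE_Val w) {f g : O} (hf : f ≠ 0) (hg : g ≠ 0) (h : w f = w g) :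
    ∃ c : ℂ, c ≠ 0 ∧ f - c • g ∈ CURVE_ge hw (w f + 1) := by
  obtain ⟨c, hc, h1 | h1⟩ := hw.res f g hf hg h
  · exact ⟨c, hc, Or.inl h1⟩
  · exact ⟨c, hc, Or.inr (by omega)⟩

theorem CURVE_linInd (hw : CURVE_Val w) {ι : Type*} (v : ι → O) (hv : ∀ i, v i ≠ 0)
    (hinj : ∀ i j, w (v i) = w (v j) → i = j) : LinearIndependent ℂ v := by
  classical
  rw [linearIndependent_iff']
  intro s g hsum
  by_contra hcon
  push Not at hcon
  obtain ⟨i1, hi1, hgi1⟩ := hcon
  have hne : (s.filter fun i => g i ≠ 0).Nonempty := ⟨i1, Finset.mem_filter.2 ⟨hi1, hgi1⟩⟩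
  obtain ⟨i0, hi0, hmin⟩ := Finset.exists_min_image _ (fun i => w (v i)) hne
  rw [Finset.mem_filter] at hi0
  apply hi0.2
  apply CURVE_smul_cancel hw (hv i0)
  have h1 : g i0 • v i0 = - ∑ i ∈ s.erase i0, g i • v i := by
    rw [← Finset.add_sum_erase s _ hi0.1] at hsum
    exact eq_neg_of_add_eq_zero_left hsum
  rw [h1]
  apply Submodule.neg_mem
  apply Submodule.sum_mem
  intro i hi
  rw [Finset.mem_erase] at hi
  by_cases hgi : g i = 0
  · rw [hgi, zero_smul]; exact Submodule.zero_mem _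
  apply Submodule.smul_mem
  right
  have h2 := hmin i (Finset.mem_filter.2 ⟨hi.2, hgi⟩)
  have h3 : w (v i0) ≠ w (v i) := fun h => hi.1 (hinj _ _ h).symm
  have h4 : w (v i0) < w (v i) := lt_of_le_of_ne h2 h3
  omega

theorem CURVE_finite (hw : CURVE_Val w) (V : Submodule ℂ O) [FiniteDimensional ℂ V] :
    {j : ℤ | ∃ v ∈ V, v ≠ 0 ∧ w v = j}.Finite := by
  classical
  set K := {j : ℤ | ∃ v ∈ V, v ≠ 0 ∧ w v = j} with hK
  have hch : ∀ k : K, ∃ v ∈ V, v ≠ 0 ∧ w v = k := fun k => k.2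
  choose u huV hu0 huw using hch
  have hli : LinearIndependent ℂ (fun k : K => (⟨u k, huV k⟩ : V)) := by
    apply LinearIndependent.of_comp V.subtype
    apply CURVE_linInd hw
    · intro i; exact hu0 i
    · intro i j hij
      apply Subtype.ext
      have h1 : w (u i) = w (u j) := hij
      rw [huw, huw] at h1
      exact h1
  have : Finite K := hli.finite
  exact Set.toFinite K

theorem CURVE_bdd (hw : CURVE_Val w) (V : Submodule ℂ O) [FiniteDimensional ℂ V] :
    ∃ M : ℤ, ∀ v ∈ V, v ≠ 0 → w v ≤ M := by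
  obtain ⟨M, hM⟩ := (CURVE_finite hw V).bddAbove
  exact ⟨M, fun v hv hv0 => hM ⟨v, hv, hv0, rfl⟩⟩

/-! ### leading coefficients of automorphisms -/

theorem CURVE_aut_ge (hw : CURVE_Val w) {g : O ≃ₐ[ℂ] O} (hg : ∀ f, f ≠ 0 → w (g f) = w f)
    {j : ℤ} {f : O} (hf : f ∈ CURVE_ge hw j) : g f ∈ CURVE_ge hw j := by
  by_cases h0 : f = 0
  · rw [h0, map_zero]; exact Submodule.zero_mem _
  rcases hf with hf | hf
  · exact absurd hf h0
  · right; rw [hg f h0]; exact hf

theorem CURVE_transfer (hw : CURVE_Val w) {g : O ≃ₐ[ℂ] O} (hg : ∀ f, f ≠ 0 → w (g f) = w f)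
    {f f' : O} (hf : f ≠ 0) (hf' : f' ≠ 0) (h : w f = w f') {c : ℂ}
    (hc : g f - c • f ∈ CURVE_ge hw (w f + 1)) : g f' - c • f' ∈ CURVE_ge hw (w f' + 1) := by
  obtain ⟨d, hd, hh⟩ := CURVE_res hw hf' hf h.symm
  rw [← h] at hh ⊢
  have h1 : g f' - c • f' = d • (g f - c • f) + (g (f' - d • f) - c • (f' - d • f)) := by
    rw [map_sub, map_smul]
    module
  rw [h1]
  exact Submodule.add_mem _ (Submodule.smul_mem _ _ hc)
    (Submodule.sub_mem _ (CURVE_aut_ge hw hg hh) (Submodule.smul_mem _ _ hh))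

open Classical in
/-- the leading coefficient character -/
noncomputable def CURVE_al (hw : CURVE_Val w) (g : O ≃ₐ[ℂ] O) (j : ℤ) : ℂ :=
  if h : ∃ c : ℂ, ∀ f, f ≠ 0 → w f = j → g f - c • f ∈ CURVE_ge hw (w f + 1) then h.choose else 0

theorem CURVE_al_spec (hw : CURVE_Val w) {g : O ≃ₐ[ℂ] O} (hg : ∀ f, f ≠ 0 → w (g f) = w f)
    {f : O} (hf : f ≠ 0) : g f - CURVE_al hw g (w f) • f ∈ CURVE_ge hw (w f + 1) := by
  have hex : ∃ c : ℂ, ∀ f', f' ≠ 0 → w f' = w f → g f' - c • f' ∈ CURVE_ge hw (w f' + 1) := by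
    have hgf : g f ≠ 0 := by
      intro h
      exact hf ((map_eq_zero_iff g g.injective).1 h)
    obtain ⟨c, _, hcc⟩ := CURVE_res hw hgf hf (hg f hf)
    rw [hg f hf] at hcc
    exact ⟨c, fun f' hf' h' => CURVE_transfer hw hg hf hf' h'.symm hcc⟩
  unfold CURVE_al
  rw [dif_pos hex]
  exact hex.choose_spec f hf rfl

theorem CURVE_al_uniq (hw : CURVE_Val w) {g : O ≃ₐ[ℂ] O} (hg : ∀ f, f ≠ 0 → w (g f) = w f)
    {f : O} (hf : f ≠ 0) {c : ℂ} (hc : g f - c • f ∈ CURVE_ge hw (w f + 1)) :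
    c = CURVE_al hw g (w f) := by
  have h1 := Submodule.sub_mem _ (CURVE_al_spec hw hg hf) hc
  have h2 : g f - CURVE_al hw g (w f) • f - (g f - c • f) =
      (c - CURVE_al hw g (w f)) • f := by module
  rw [h2] at h1
  exact sub_eq_zero.1 (CURVE_smul_cancel hw hf h1)

theorem CURVE_al_ne (hw : CURVE_Val w) {g : O ≃ₐ[ℂ] O} (hg : ∀ f, f ≠ 0 → w (g f) = w f)
    {f : O} (hf : f ≠ 0) : CURVE_al hw g (w f) ≠ 0 := by
  intro h0
  have h1 := CURVE_al_spec hw hg hf
  rw [h0, zero_smul, sub_zero] at h1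
  have hgf : g f ≠ 0 := by
    intro h
    exact hf ((map_eq_zero_iff g g.injective).1 h)
  rcases h1 with h1 | h1
  · exact hgf h1
  · rw [hg f hf] at h1
    omega

theorem CURVE_mul_ge (hw : CURVE_Val w) {i j : ℤ} {a b : O} (ha : a ∈ CURVE_ge hw i)
    (hb : b ∈ CURVE_ge hw j) : a * b ∈ CURVE_ge hw (i + j) := by
  by_cases h0 : a = 0
  · rw [h0, zero_mul]; exact Submodule.zero_mem _
  by_cases h1 : b = 0
  · rw [h1, mul_zero]; exact Submodule.zero_mem _
  rcases ha with ha | ha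
  · exact absurd ha h0
  rcases hb with hb | hb
  · exact absurd hb h1
  right
  rw [hw.mul a b h0 h1]
  omega

theorem CURVE_al_mul (hw : CURVE_Val w) {g : O ≃ₐ[ℂ] O} (hg : ∀ f, f ≠ 0 → w (g f) = w f)
    {f f' : O} (hf : f ≠ 0) (hf' : f' ≠ 0) :
    CURVE_al hw g (w f + w f') = CURVE_al hw g (w f) * CURVE_al hw g (w f') := by
  have := hw.dom
  have hne : f * f' ≠ 0 := mul_ne_zero hf hf'
  have hm := hw.mul f f' hf hf'
  rw [← hm]
  symm
  apply CURVE_al_uniq hw hg hne
  have s1 := CURVE_al_spec hw hg hf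
  have s2 := CURVE_al_spec hw hg hf'
  set c := CURVE_al hw g (w f)
  set c' := CURVE_al hw g (w f')
  have h1 : g (f * f') - (c * c') • (f * f') =
      (g f - c • f) * g f' + (c • f) * (g f' - c' • f') := by
    rw [map_mul, Algebra.smul_def, Algebra.smul_def, Algebra.smul_def, map_mul]
    ring
  rw [h1, hm]
  apply Submodule.add_mem
  · have h2 : g f' ∈ CURVE_ge hw (w f') := CURVE_aut_ge hw hg (Or.inr le_rfl)
    have h3 := CURVE_mul_ge hw s1 h2
    rwa [show w f + 1 + w f' = w f + w f' + 1 by ring] at h3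
  · have h2 : c • f ∈ CURVE_ge hw (w f) := Submodule.smul_mem _ _ (Or.inr le_rfl)
    have h3 := CURVE_mul_ge hw h2 s2
    rwa [show w f + (w f' + 1) = w f + w f' + 1 by ring] at h3

theorem CURVE_al_comp (hw : CURVE_Val w) {g g' : O ≃ₐ[ℂ] O}
    (hg : ∀ f, f ≠ 0 → w (g f) = w f) (hg' : ∀ f, f ≠ 0 → w (g' f) = w f)
    {f : O} (hf : f ≠ 0) :
    CURVE_al hw (g * g') (w f) = CURVE_al hw g (w f) * CURVE_al hw g' (w f) := by
  have hgg : ∀ f, f ≠ 0 → w ((g * g') f) = w f := by
    intro f hf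
    rw [AlgEquiv.mul_apply, hg _ (by simpa using hf), hg' _ hf]
  symm
  apply CURVE_al_uniq hw hgg hf
  have s1 := CURVE_al_spec hw hg hf
  have s2 := CURVE_al_spec hw hg' hf
  set c := CURVE_al hw g (w f)
  set c' := CURVE_al hw g' (w f)
  have h1 : (g * g') f - (c * c') • f = g (g' f - c' • f) + c' • (g f - c • f) := by
    rw [AlgEquiv.mul_apply, map_sub, map_smul]
    module
  rw [h1]
  exact Submodule.add_mem _ (CURVE_aut_ge hw hg s2) (Submodule.smul_mem _ _ s1)

end val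

/-! ### the unipotent case -/

section unip

variable {O : Type} [CommRing O] [Algebra ℂ O]

theorem CURVE_transc [IsDomain O] {h : O} (hh : ∀ c : ℂ, h ≠ algebraMap ℂ O c) :
    Transcendental ℂ h := by
  intro halg
  have hint : IsIntegral ℂ h := halg.isIntegral
  have hirr := minpoly.irreducible hint
  have hdeg := IsAlgClosed.degree_eq_one_of_irreducible ℂ hirr
  obtain ⟨c, hc⟩ := minpoly.mem_range_of_degree_eq_one ℂ h hdeg
  exact hh c hc.symm

/-- a nonconstant fixed element makes the orbits finite -/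
theorem CURVE_periodic (hO : CurveRing O) (g : O ≃ₐ[ℂ] O) {h : O}
    (hh : ∀ c : ℂ, h ≠ algebraMap ℂ O c) (hgh : g h = h) (f : O) :
    ∃ n : ℕ, 0 < n ∧ (g ^ n) f = f := by
  classical
  have := hO.dom
  obtain ⟨P, hP0, hP⟩ := hO.dep f h
  have htr := CURVE_transc hh
  obtain ⟨ev, hev⟩ : ∃ ev : MvPolynomial (Fin 1) ℂ →ₐ[ℂ] O,
      ev = MvPolynomial.aeval (fun _ : Fin 1 => h) := ⟨_, rfl⟩
  have hinj : Function.Injective ev := by
    have : AlgebraicIndependent ℂ (fun _ : Fin 1 => h) :=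
      algebraicIndependent_unique_type_iff.2 htr
    rw [hev]
    exact this
  have hinj2 : Function.Injective (Polynomial.mapAlgHom ev) := by
    have h1 : Function.Injective (Polynomial.map (ev : MvPolynomial (Fin 1) ℂ →+* O)) :=
      Polynomial.map_injective (ev : MvPolynomial (Fin 1) ℂ →+* O) hinj
    intro a b hab
    exact h1 hab
  obtain ⟨φ, hφ⟩ : ∃ φ : MvPolynomial (Fin 2) ℂ →ₐ[ℂ] O[X],
      φ = (Polynomial.mapAlgHom ev).comp (MvPolynomial.finSuccEquiv ℂ 1 :
        MvPolynomial (Fin 2) ℂ →ₐ[ℂ] Polynomial (MvPolynomial (Fin 1) ℂ)) := ⟨_, rfl⟩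
  have hφinj : Function.Injective φ := by
    intro a b hab
    rw [hφ] at hab
    exact (MvPolynomial.finSuccEquiv ℂ 1).injective (hinj2 hab)
  have hφ0 : φ P ≠ 0 := by
    intro h0
    exact hP0 (hφinj (by rw [h0, map_zero]))
  have heval : ∀ x : O, Polynomial.eval x (φ P) = MvPolynomial.aeval ![x, h] P := by
    intro x
    have h1 : ((Polynomial.aeval x).restrictScalars ℂ).comp φ =
        (MvPolynomial.aeval ![x, h] : MvPolynomial (Fin 2) ℂ →ₐ[ℂ] O) := by
      apply MvPolynomial.algHom_ext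
      intro i
      fin_cases i
      · have h0 := MvPolynomial.finSuccEquiv_X_zero (R := ℂ) (n := 1)
        simp [hφ, h0]
      · have h0 := MvPolynomial.finSuccEquiv_X_succ (R := ℂ) (n := 1) (j := 0)
        rw [Fin.succ_zero_eq_one] at h0
        simp [hφ, h0, hev]
    have h2 := DFunLike.congr_fun h1 P
    simpa [Polynomial.aeval_def, Polynomial.eval₂_eq_eval_map] using h2
  have hgn : ∀ n : ℕ, (g ^ n) h = h := by
    intro n
    induction n with
    | zero => simp
    | succ n ih => rw [pow_succ, AlgEquiv.mul_apply, hgh, ih]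
  have hroot : ∀ n : ℕ, (g ^ n) f ∈ (φ P).roots.toFinset := by
    intro n
    rw [Multiset.mem_toFinset, Polynomial.mem_roots hφ0, Polynomial.IsRoot, heval]
    have h1 : (fun i => (g ^ n) ((![f, h] : Fin 2 → O) i)) = ![(g ^ n) f, h] := by
      funext i
      fin_cases i
      · rfl
      · exact hgn n
    rw [← h1]
    have h2 : (MvPolynomial.aeval fun i => (g ^ n) ((![f, h] : Fin 2 → O) i)) P =
        (g ^ n) (MvPolynomial.aeval ![f, h] P) := by
      have := MvPolynomial.comp_aeval_apply ![f, h] ((g ^ n : O ≃ₐ[ℂ] O) : O →ₐ[ℂ] O) P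
      simpa using this.symm
    rw [h2, hP, map_zero]
  let F : ℕ → (φ P).roots.toFinset := fun n => ⟨(g ^ n) f, hroot n⟩
  have hnot : ¬ Function.Injective F := not_injective_infinite_finite F
  rw [Function.Injective] at hnot
  push Not at hnot
  obtain ⟨a, b, hab, hne⟩ := hnot
  have hab' : (g ^ a) f = (g ^ b) f := congrArg Subtype.val hab
  rcases lt_or_gt_of_ne hne with hlt | hlt
  · refine ⟨b - a, by omega, ?_⟩
    have h1 : (g ^ b) f = (g ^ a) ((g ^ (b - a)) f) := by
      rw [← AlgEquiv.mul_apply, ← pow_add, show a + (b - a) = b by omega]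
    rw [h1] at hab'
    exact ((g ^ a).injective hab').symm
  · refine ⟨a - b, by omega, ?_⟩
    have h1 : (g ^ a) f = (g ^ b) ((g ^ (a - b)) f) := by
      rw [← AlgEquiv.mul_apply, ← pow_add, show b + (a - b) = a by omega]
    rw [h1] at hab'
    exact (g ^ b).injective hab'

theorem CURVE_diff (p : ℂ[X]) : ∃ q : ℂ[X], q.comp (Polynomial.X + 1) - q = p := by
  have hmono : ∀ n : ℕ, ∃ q : ℂ[X], q.comp (Polynomial.X + 1) - q = Polynomial.X ^ n := by
    intro n
    have hQ : (Polynomial.bernoulli (n + 1)).comp (Polynomial.X + 1) -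
        Polynomial.bernoulli (n + 1) = Polynomial.C ((n : ℚ) + 1) * Polynomial.X ^ n := by
      apply Polynomial.funext
      intro x
      rw [Polynomial.eval_sub, Polynomial.eval_comp]
      have h1 := Polynomial.bernoulli_eval_one_add (n + 1) x
      simp only [Polynomial.eval_add, Polynomial.eval_X, Polynomial.eval_one,
        Polynomial.eval_mul, Polynomial.eval_C, Polynomial.eval_pow]
      rw [add_comm x 1, h1]
      push_cast
      simp
    have hC := congrArg (Polynomial.map (algebraMap ℚ ℂ)) hQ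
    rw [Polynomial.map_sub, Polynomial.map_comp, Polynomial.map_mul, Polynomial.map_C] at hC
    simp only [Polynomial.map_add, Polynomial.map_X, Polynomial.map_one, Polynomial.map_pow] at hC
    have hne : ((n : ℂ) + 1) ≠ 0 := by exact_mod_cast Nat.succ_ne_zero n
    refine ⟨Polynomial.C (((n : ℂ) + 1)⁻¹) *
      (Polynomial.map (algebraMap ℚ ℂ) (Polynomial.bernoulli (n + 1))), ?_⟩
    rw [Polynomial.mul_comp, Polynomial.C_comp, ← mul_sub, hC, ← mul_assoc, ← Polynomial.C_mul]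
    have : ((n : ℂ) + 1)⁻¹ * (algebraMap ℚ ℂ) ((n : ℚ) + 1) = 1 := by
      rw [map_add, map_natCast, map_one, inv_mul_cancel₀ hne]
    rw [this, Polynomial.C_1, one_mul]
  induction p using Polynomial.induction_on' with
  | add p q hp hq =>
    obtain ⟨a, ha⟩ := hp
    obtain ⟨b, hb⟩ := hq
    refine ⟨a + b, ?_⟩
    rw [← ha, ← hb, Polynomial.add_comp]
    ring
  | monomial n a =>
    obtain ⟨q, hq⟩ := hmono n
    refine ⟨Polynomial.C a * q, ?_⟩
    rw [Polynomial.mul_comp, Polynomial.C_comp, ← mul_sub, hq, Polynomial.C_mul_X_pow_eq_monomial]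

theorem CURVE_unip (hO : CurveRing O) (g : O ≃ₐ[ℂ] O) (hg1 : g ≠ 1)
    (N : Module.End ℂ O) (hNf : ∀ f, N f = g f - f) (hnil : ∀ f : O, ∃ k : ℕ, (N ^ k) f = 0) :
    Nonempty (O ≃ₐ[ℂ] Polynomial ℂ) := by
  have := hO.dom
  -- last nonzero iterate
  have hlast : ∀ f, N f ≠ 0 → ∃ r : ℕ, N ((N ^ r) f) ≠ 0 ∧ N (N ((N ^ r) f)) = 0 := by
    classical
    intro f hf
    have hex : ∃ k, (N ^ k) f = 0 := hnil f
    have hk := Nat.find_spec hex
    have hmin := fun m => Nat.find_min hex (m := m)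
    set k := Nat.find hex
    have hk0 : k ≠ 0 := by
      intro h0
      rw [h0, pow_zero, Module.End.one_apply] at hk
      exact hf (by rw [hk, map_zero])
    have hk1 : k ≠ 1 := by
      intro h0
      rw [h0, pow_one] at hk
      exact hf hk
    refine ⟨k - 2, ?_, ?_⟩
    · have := hmin (k - 1) (by omega)
      rwa [show k - 1 = (k - 2) + 1 by omega, pow_succ', Module.End.mul_apply] at this
    · rw [show k = (k - 2) + 1 + 1 by omega, pow_succ', pow_succ', Module.End.mul_apply,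
        Module.End.mul_apply] at hk
      exact hk
  have hgN : ∀ f, g (N f) = N (g f) := by
    intro f
    rw [hNf, hNf, map_sub]
  have hgnN : ∀ (n r : ℕ) (f : O), (g ^ n) ((N ^ r) f) = (N ^ r) ((g ^ n) f) := by
    intro n r f
    have h1 : ∀ (r : ℕ) (f : O), g ((N ^ r) f) = (N ^ r) (g f) := by
      intro r
      induction r with
      | zero => intro f; simp
      | succ r ih =>
        intro f
        rw [pow_succ, Module.End.mul_apply, Module.End.mul_apply, ih, hgN]
    induction n generalizing f with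
    | zero => simp
    | succ n ih =>
      rw [pow_succ, AlgEquiv.mul_apply, AlgEquiv.mul_apply, h1, ih]
  -- the kernel
  have hker : ∀ h, N h = 0 → ∃ c : ℂ, h = algebraMap ℂ O c := by
    intro h hh
    by_contra hcon
    push Not at hcon
    have hgh : g h = h := sub_eq_zero.1 (by rw [← hNf]; exact hh)
    apply hg1
    apply AlgEquiv.ext
    intro f
    rw [AlgEquiv.one_apply]
    by_contra hgf
    have hNfne : N f ≠ 0 := by rw [hNf]; exact sub_ne_zero.2 hgf
    obtain ⟨r, hr1, hr2⟩ := hlast f hNfne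
    obtain ⟨n, hn, hper⟩ := CURVE_periodic hO g hcon hgh f
    set v := (N ^ r) f with hv
    have hgv : (g ^ n) v = v := by rw [hv, hgnN, hper]
    have hgNv : g (N v) = N v := sub_eq_zero.1 (by rw [← hNf]; exact hr2)
    have hpow : ∀ m : ℕ, (g ^ m) v = v + (m : ℂ) • N v := by
      intro m
      induction m with
      | zero => simp
      | succ m ih =>
        rw [pow_succ', AlgEquiv.mul_apply, ih, map_add, map_smul, hgNv]
        have : g v = v + N v := by rw [hNf]; ring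
        rw [this]
        push_cast
        module
    rw [hpow n] at hgv
    have h1 : (n : ℂ) • N v = 0 := by simpa using hgv
    rw [Algebra.smul_def] at h1
    rcases mul_eq_zero.1 h1 with h2 | h2
    · rw [map_eq_zero] at h2
      exact hn.ne' (by exact_mod_cast h2)
    · exact hr1 h2
  -- the slice
  obtain ⟨f, hf⟩ : ∃ f, N f ≠ 0 := by
    by_contra hcon
    push Not at hcon
    apply hg1
    apply AlgEquiv.ext
    intro f
    rw [AlgEquiv.one_apply]
    exact sub_eq_zero.1 (by rw [← hNf]; exact hcon f)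
  obtain ⟨r, hr1, hr2⟩ := hlast f hf
  set v := (N ^ r) f with hv
  obtain ⟨c, hc⟩ := hker _ hr2
  have hc0 : c ≠ 0 := by
    rintro rfl
    rw [map_zero] at hc
    exact hr1 hc
  set s := c⁻¹ • v with hs
  have hNs : N s = 1 := by
    rw [hs, map_smul, hc, Algebra.smul_def, ← map_mul, inv_mul_cancel₀ hc0, map_one]
  have hgs : g s = s + 1 := by
    have := hNf s
    rw [hNs] at this
    rw [this]; ring
  have hs_nc : ∀ c : ℂ, s ≠ algebraMap ℂ O c := by
    intro c hsc
    have : N s = 0 := by rw [hNf, hsc, AlgEquiv.commutes, sub_self]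
    rw [hNs] at this
    exact one_ne_zero this
  have htr := CURVE_transc hs_nc
  have hinj : Function.Injective (Polynomial.aeval (R := ℂ) s) :=
    transcendental_iff_injective.1 htr
  have hsurj : ∀ k : ℕ, ∀ f, (N ^ k) f = 0 → ∃ p : ℂ[X], Polynomial.aeval s p = f := by
    intro k
    induction k with
    | zero => intro f hf; exact ⟨0, by simpa using hf.symm⟩
    | succ k ih =>
      intro f hf
      rw [pow_succ, Module.End.mul_apply] at hf
      obtain ⟨p, hp⟩ := ih _ hf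
      obtain ⟨q, hq⟩ := CURVE_diff p
      have h1 : N (Polynomial.aeval s q) = Polynomial.aeval s p := by
        rw [hNf]
        have h2 : g (Polynomial.aeval s q) = Polynomial.aeval (g s) q :=
          (Polynomial.aeval_algHom_apply (g : O →ₐ[ℂ] O) s q).symm
        rw [h2, hgs, ← hq, map_sub, Polynomial.aeval_comp]
        simp
      have h3 : N (f - Polynomial.aeval s q) = 0 := by
        rw [map_sub, h1, hp, sub_self]
      obtain ⟨d, hd⟩ := hker _ h3
      refine ⟨q + Polynomial.C d, ?_⟩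
      rw [map_add, Polynomial.aeval_C, ← hd]
      ring
  refine ⟨(AlgEquiv.ofBijective (Polynomial.aeval (R := ℂ) s) ⟨hinj, ?_⟩).symm⟩
  intro f
  obtain ⟨k, hk⟩ := hnil f
  exact hsurj k f hk

end unip

/-! ### the diagonalizable case -/

section diag

variable {O : Type} [CommRing O] [Algebra ℂ O] {w : O → ℤ}

/-- common eigenvectors with the expected eigenvalues -/
def CURVE_Eig (hw : CURVE_Val w) (Q : Subgroup (O ≃ₐ[ℂ] O)) (e : O) (j : ℤ) : Prop :=
  e ≠ 0 ∧ w e = j ∧ ∀ g ∈ Q, g e = CURVE_al hw g j • e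

/-- the hypotheses of the diagonalizable case -/
structure CURVE_Diag (hw : CURVE_Val w) (Q : Subgroup (O ≃ₐ[ℂ] O)) : Prop where
  inf : Infinite Q
  pres : ∀ g ∈ Q, ∀ f, f ≠ 0 → w (g f) = w f
  fin : ∀ f : O, ∃ V : Submodule ℂ O, FiniteDimensional ℂ V ∧ f ∈ V ∧
    ∀ g ∈ Q, ∀ v ∈ V, g v ∈ V
  neg : ∃ f, f ≠ 0 ∧ w f < 0
  faith : ∀ g ∈ Q, (∀ f, f ≠ 0 → g f - f ∈ CURVE_ge hw (w f + 1)) → g = 1

theorem CURVE_sep (hw : CURVE_Val w) {Q : Subgroup (O ≃ₐ[ℂ] O)} (hD : CURVE_Diag hw Q)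
    {g g' : O ≃ₐ[ℂ] O} (hg : g ∈ Q) (hg' : g' ∈ Q)
    (h : ∀ f, f ≠ 0 → CURVE_al hw g (w f) = CURVE_al hw g' (w f)) : g = g' := by
  have h1 : g * g'⁻¹ = 1 := by
    apply hD.faith _ (Q.mul_mem hg (Q.inv_mem hg'))
    intro f hf
    have hgg : g * g'⁻¹ ∈ Q := Q.mul_mem hg (Q.inv_mem hg')
    have h2 := CURVE_al_spec hw (hD.pres _ hgg) hf
    have h3 := CURVE_al_comp hw (hD.pres _ hgg) (hD.pres _ hg') hf
    rw [inv_mul_cancel_right, h f hf] at h3
    have h4 := CURVE_al_ne hw (hD.pres _ hg') hf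
    have h5 : CURVE_al hw (g * g'⁻¹) (w f) = 1 := by
      have h6 : (CURVE_al hw (g * g'⁻¹) (w f) - 1) * CURVE_al hw g' (w f) = 0 := by
        rw [sub_mul, one_mul, ← h3, sub_self]
      rcases mul_eq_zero.1 h6 with h7 | h7
      · exact sub_eq_zero.1 h7
      · exact absurd h7 h4
    rwa [h5, one_smul] at h2
  exact mul_inv_eq_one.1 h1

/-- the group of differences of the values is cyclic -/
theorem CURVE_cyc (hw : CURVE_Val w) (hneg : ∃ f : O, f ≠ 0 ∧ w f < 0) :
    ∃ d : ℤ, 0 < d ∧ (∃ a b : O, a ≠ 0 ∧ b ≠ 0 ∧ w a - w b = d) ∧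
      ∀ f : O, f ≠ 0 → ∃ m : ℤ, w f = m * d := by
  have := hw.dom
  have h10 : w (1 : O) = 0 := by
    have := hw.const 1 one_ne_zero
    rwa [map_one] at this
  let H : AddSubgroup ℤ :=
    { carrier := {x | ∃ a b : O, a ≠ 0 ∧ b ≠ 0 ∧ w a - w b = x}
      add_mem' := by
        rintro x y ⟨a, b, ha, hb, rfl⟩ ⟨a', b', ha', hb', rfl⟩
        refine ⟨a * a', b * b', mul_ne_zero ha ha', mul_ne_zero hb hb', ?_⟩
        rw [hw.mul _ _ ha ha', hw.mul _ _ hb hb']
        ring
      zero_mem' := ⟨1, 1, one_ne_zero, one_ne_zero, sub_self _⟩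
      neg_mem' := by
        rintro x ⟨a, b, ha, hb, rfl⟩
        exact ⟨b, a, hb, ha, by ring⟩ }
  obtain ⟨a0, ha0⟩ := Int.subgroup_cyclic H
  have hmem : ∀ f : O, f ≠ 0 → w f ∈ H := fun f hf => ⟨f, 1, hf, one_ne_zero, by rw [h10, sub_zero]⟩
  have hmul : ∀ x ∈ H, ∃ m : ℤ, x = m * a0 := by
    intro x hx
    rw [ha0, ← AddSubgroup.zmultiples_eq_closure, AddSubgroup.mem_zmultiples_iff] at hx
    obtain ⟨m, hm⟩ := hx
    exact ⟨m, by rw [← hm]; simp⟩
  have ha0H : a0 ∈ H := by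
    rw [ha0]; exact AddSubgroup.subset_closure (Set.mem_singleton _)
  have ha0ne : a0 ≠ 0 := by
    rintro rfl
    obtain ⟨f, hf, hfneg⟩ := hneg
    obtain ⟨m, hm⟩ := hmul _ (hmem f hf)
    rw [mul_zero] at hm
    omega
  rcases lt_or_gt_of_ne ha0ne with h | h
  · refine ⟨-a0, by omega, H.neg_mem ha0H, ?_⟩
    intro f hf
    obtain ⟨m, hm⟩ := hmul _ (hmem f hf)
    exact ⟨-m, by rw [hm]; ring⟩
  · refine ⟨a0, h, ha0H, ?_⟩
    intro f hf
    exact hmul _ (hmem f hf)

theorem CURVE_al_one (hw : CURVE_Val w) {g : O ≃ₐ[ℂ] O} (hg : ∀ f, f ≠ 0 → w (g f) = w f) :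
    CURVE_al hw g 0 = 1 := by
  have := hw.dom
  have h10 : w (1 : O) = 0 := by
    have := hw.const 1 one_ne_zero
    rwa [map_one] at this
  have h1 : (1 : ℂ) = CURVE_al hw g (w (1 : O)) := by
    apply CURVE_al_uniq hw hg one_ne_zero
    rw [map_one, one_smul, sub_self]
    exact Submodule.zero_mem _
  rw [h10] at h1
  exact h1.symm

theorem CURVE_w_pow (hw : CURVE_Val w) {f : O} (hf : f ≠ 0) (n : ℕ) : w (f ^ n) = n * w f := by
  have := hw.dom
  have h10 : w (1 : O) = 0 := by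
    have := hw.const 1 one_ne_zero
    rwa [map_one] at this
  induction n with
  | zero => simp [h10]
  | succ n ih =>
    rw [pow_succ, hw.mul _ _ (pow_ne_zero n hf) hf, ih]
    push_cast
    ring

theorem CURVE_al_pow (hw : CURVE_Val w) {g : O ≃ₐ[ℂ] O} (hg : ∀ f, f ≠ 0 → w (g f) = w f)
    {f : O} (hf : f ≠ 0) (n : ℕ) :
    CURVE_al hw g (n * w f) = CURVE_al hw g (w f) ^ n := by
  have := hw.dom
  induction n with
  | zero => simp [CURVE_al_one hw hg]
  | succ n ih =>
    have h1 : ((n + 1 : ℕ) : ℤ) * w f = w (f ^ n) + w f := by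
      rw [CURVE_w_pow hw hf]; push_cast; ring
    rw [h1, CURVE_al_mul hw hg (pow_ne_zero n hf) hf, CURVE_w_pow hw hf, ih, pow_succ]

theorem CURVE_al_zpow (hw : CURVE_Val w) {g : O ≃ₐ[ℂ] O} (hg : ∀ f, f ≠ 0 → w (g f) = w f)
    {a b f : O} (ha : a ≠ 0) (hb : b ≠ 0) (hf : f ≠ 0) {d m : ℤ} (hd : w a - w b = d)
    (hm : w f = m * d) :
    CURVE_al hw g (w f) = (CURVE_al hw g (w a) / CURVE_al hw g (w b)) ^ m := by
  have := hw.dom
  have hna := CURVE_al_ne hw hg ha
  have hnb := CURVE_al_ne hw hg hb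
  obtain ⟨n, rfl | rfl⟩ := Int.eq_nat_or_neg m
  · have h1 : w f + w (b ^ n) = n * w a := by
      rw [CURVE_w_pow hw hb, hm, ← hd]; ring
    have h2 := CURVE_al_mul hw hg hf (pow_ne_zero n hb)
    rw [h1, CURVE_w_pow hw hb, CURVE_al_pow hw hg ha, CURVE_al_pow hw hg hb] at h2
    rw [zpow_natCast, div_pow, h2]
    field_simp
  · have h1 : w f + w (a ^ n) = n * w b := by
      rw [CURVE_w_pow hw ha, hm, ← hd]; ring
    have h2 := CURVE_al_mul hw hg hf (pow_ne_zero n ha)
    rw [h1, CURVE_w_pow hw ha, CURVE_al_pow hw hg ha, CURVE_al_pow hw hg hb] at h2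
    rw [zpow_neg, zpow_natCast, div_pow, h2]
    field_simp

theorem CURVE_fin2 (hw : CURVE_Val w) {Q : Subgroup (O ≃ₐ[ℂ] O)} (hD : CURVE_Diag hw Q)
    {f f' : O} (hf : f ≠ 0) (hf' : f' ≠ 0) (hne : w f ≠ w f') :
    {g : Q | CURVE_al hw (g : O ≃ₐ[ℂ] O) (w f) = CURVE_al hw (g : O ≃ₐ[ℂ] O) (w f')}.Finite := by
  obtain ⟨d, hd0, ⟨a, b, ha, hb, hab⟩, hmul⟩ := CURVE_cyc hw hD.neg
  obtain ⟨m, hm⟩ := hmul f hf
  obtain ⟨n, hn⟩ := hmul f' hf'
  have hmn : m ≠ n := by
    rintro rfl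
    exact hne (by rw [hm, hn])
  let χ : Q → ℂ := fun g => CURVE_al hw (g : O ≃ₐ[ℂ] O) (w a) / CURVE_al hw (g : O ≃ₐ[ℂ] O) (w b)
  have hχ0 : ∀ g : Q, χ g ≠ 0 := fun g =>
    div_ne_zero (CURVE_al_ne hw (hD.pres _ g.2) ha) (CURVE_al_ne hw (hD.pres _ g.2) hb)
  have hinj : Function.Injective χ := by
    intro g g' hgg
    apply Subtype.ext
    apply CURVE_sep hw hD g.2 g'.2
    intro x hx
    obtain ⟨k, hk⟩ := hmul x hx
    rw [CURVE_al_zpow hw (hD.pres _ g.2) ha hb hx hab hk,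
      CURVE_al_zpow hw (hD.pres _ g'.2) ha hb hx hab hk]
    exact congrArg (· ^ k) hgg
  -- roots of unity
  have hfinroots : {z : ℂ | z ^ (m - n).natAbs = 1}.Finite := by
    have hpos : 0 < (m - n).natAbs := Int.natAbs_pos.2 (sub_ne_zero.2 hmn)
    have h1 : {z : ℂ | z ^ (m - n).natAbs = 1} ⊆
        (↑(Polynomial.nthRootsFinset (m - n).natAbs (1 : ℂ)) : Set ℂ) := by
      intro z hz
      rw [Finset.mem_coe, Polynomial.mem_nthRootsFinset hpos]
      exact hz
    exact (Finset.finite_toSet _).subset h1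
  apply (hfinroots.preimage hinj.injOn).subset
  intro g hg
  have hg' : CURVE_al hw (g : O ≃ₐ[ℂ] O) (w f) = CURVE_al hw (g : O ≃ₐ[ℂ] O) (w f') := hg
  rw [CURVE_al_zpow hw (hD.pres _ g.2) ha hb hf hab hm,
    CURVE_al_zpow hw (hD.pres _ g.2) ha hb hf' hab hn] at hg'
  have h1 : (χ g) ^ (m - n) = 1 := by
    rw [zpow_sub₀ (hχ0 g)]
    exact (div_eq_one_iff_eq (zpow_ne_zero _ (hχ0 g))).2 hg'
  change (χ g) ^ (m - n).natAbs = 1
  rcases Int.natAbs_eq (m - n) with h2 | h2
  · rw [h2, zpow_natCast] at h1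
    exact h1
  · rw [h2, zpow_neg, zpow_natCast, inv_eq_one] at h1
    exact h1

theorem CURVE_comm (hw : CURVE_Val w) {Q : Subgroup (O ≃ₐ[ℂ] O)} (hD : CURVE_Diag hw Q)
    {g g' : O ≃ₐ[ℂ] O} (hg : g ∈ Q) (hg' : g' ∈ Q) : g * g' = g' * g := by
  apply CURVE_sep hw hD (Q.mul_mem hg hg') (Q.mul_mem hg' hg)
  intro f hf
  rw [CURVE_al_comp hw (hD.pres _ hg) (hD.pres _ hg') hf,
    CURVE_al_comp hw (hD.pres _ hg') (hD.pres _ hg) hf, mul_comm]

theorem CURVE_eig_exists (hw : CURVE_Val w) {Q : Subgroup (O ≃ₐ[ℂ] O)} (hD : CURVE_Diag hw Q)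
    {f : O} (hf : f ≠ 0) (V : Submodule ℂ O) [FiniteDimensional ℂ V] (hfV : f ∈ V)
    (hV : ∀ g ∈ Q, ∀ v ∈ V, g v ∈ V) : ∃ e ∈ V, CURVE_Eig hw Q e (w f) := by
  classical
  have := hw.dom
  have := hD.inf
  -- a regular element
  set K := {j : ℤ | ∃ v ∈ V, v ≠ 0 ∧ w v = j} with hK
  have hKfin : K.Finite := CURVE_finite hw V
  have hbad : (⋃ p ∈ {p : ℤ × ℤ | p ∈ K ×ˢ K ∧ p.1 ≠ p.2},
      {g : Q | CURVE_al hw (g : O ≃ₐ[ℂ] O) p.1 = CURVE_al hw (g : O ≃ₐ[ℂ] O) p.2}).Finite := by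
    apply Set.Finite.biUnion
    · exact (hKfin.prod hKfin).subset fun p hp => hp.1
    · rintro ⟨i, j⟩ ⟨hij, hne⟩
      obtain ⟨⟨v, -, hv0, rfl⟩, ⟨v', -, hv0', rfl⟩⟩ := hij
      exact CURVE_fin2 hw hD hv0 hv0' hne
  obtain ⟨g0, hg0⟩ := hbad.infinite_compl.nonempty
  have hreg : ∀ v ∈ V, ∀ v' ∈ V, v ≠ 0 → v' ≠ 0 → w v ≠ w v' →
      CURVE_al hw (g0 : O ≃ₐ[ℂ] O) (w v) ≠ CURVE_al hw (g0 : O ≃ₐ[ℂ] O) (w v') := by
    intro v hv v' hv' h0 h0' hne heq
    apply hg0
    simp only [Set.mem_iUnion]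
    exact ⟨(w v, w v'), ⟨⟨⟨v, hv, h0, rfl⟩, ⟨v', hv', h0', rfl⟩⟩, hne⟩, heq⟩
  set j := w f with hj
  set c := CURVE_al hw (g0 : O ≃ₐ[ℂ] O) j with hc
  let U : Submodule ℂ O := V ⊓ CURVE_ge hw (j + 1)
  have hUfin : FiniteDimensional ℂ U := Submodule.finiteDimensional_inf_left _ _
  let T : O →ₗ[ℂ] O := (g0 : O ≃ₐ[ℂ] O).toLinearMap - c • LinearMap.id
  have hT : ∀ x, T x = (g0 : O ≃ₐ[ℂ] O) x - c • x := fun x => rfl
  have hTU : ∀ x ∈ U, T x ∈ U := by
    intro x hx
    rw [hT]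
    exact ⟨V.sub_mem (hV _ g0.2 x hx.1) (V.smul_mem _ hx.1),
      Submodule.sub_mem _ (CURVE_aut_ge hw (hD.pres _ g0.2) hx.2) (Submodule.smul_mem _ _ hx.2)⟩
  have hker : ∀ x ∈ U, T x = 0 → x = 0 := by
    intro x hx hTx
    by_contra hx0
    have h1 : c = CURVE_al hw (g0 : O ≃ₐ[ℂ] O) (w x) := by
      apply CURVE_al_uniq hw (hD.pres _ g0.2) hx0
      rw [← hT, hTx]
      exact Submodule.zero_mem _
    have h2 : w f ≠ w x := by
      rcases hx.2 with h | h
      · exact absurd h hx0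
      · rw [← hj]; omega
    exact hreg f hfV x hx.1 hf hx0 h2 h1
  have hinj : Function.Injective (T.restrict hTU) := by
    rw [injective_iff_map_eq_zero]
    rintro ⟨x, hx⟩ h
    have h1 : T x = 0 := congrArg Subtype.val h
    exact Subtype.ext (hker x hx h1)
  have hsurj := LinearMap.injective_iff_surjective.1 hinj
  have hTf : T f ∈ U := by
    refine ⟨V.sub_mem (hV _ g0.2 f hfV) (V.smul_mem _ hfV), ?_⟩
    exact CURVE_al_spec hw (hD.pres _ g0.2) hf
  obtain ⟨⟨h, hhU⟩, hh⟩ := hsurj ⟨T f, hTf⟩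
  have hh' : T h = T f := congrArg Subtype.val hh
  obtain ⟨he0, hew⟩ := CURVE_sub_high hw hf (h := h) hhU.2
  have heV : f - h ∈ V := V.sub_mem hfV hhU.1
  have hTe : T (f - h) = 0 := by rw [map_sub, hh', sub_self]
  refine ⟨f - h, heV, he0, hew, ?_⟩
  intro g hg
  set e := f - h with he
  have hge0 : g e ≠ 0 := by
    intro h0
    exact he0 ((map_eq_zero_iff g g.injective).1 h0)
  obtain ⟨c', hc'0, hc'⟩ := CURVE_res hw hge0 he0 (hD.pres g hg e he0)
  rw [hD.pres g hg e he0, hew] at hc'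
  have hTge : T (g e) = 0 := by
    rw [hT]
    have h1 : (g0 : O ≃ₐ[ℂ] O) (g e) = g ((g0 : O ≃ₐ[ℂ] O) e) := by
      rw [← AlgEquiv.mul_apply, ← AlgEquiv.mul_apply, CURVE_comm hw hD g0.2 hg]
    have h2 : (g0 : O ≃ₐ[ℂ] O) e = c • e := sub_eq_zero.1 (by rw [← hT]; exact hTe)
    rw [h1, h2, map_smul, sub_self]
  have hzero : g e - c' • e = 0 := by
    apply hker
    · exact ⟨V.sub_mem (hV g hg e heV) (V.smul_mem _ heV), hc'⟩
    · rw [map_sub, map_smul, hTge, hTe, smul_zero, sub_zero]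
  have h3 : c' = CURVE_al hw g (w e) := by
    apply CURVE_al_uniq hw (hD.pres g hg) he0
    rw [hzero]; exact Submodule.zero_mem _
  rw [hew] at h3
  rw [← h3]
  exact sub_eq_zero.1 hzero

theorem CURVE_eig_uniq (hw : CURVE_Val w) {Q : Subgroup (O ≃ₐ[ℂ] O)} (hD : CURVE_Diag hw Q)
    {e e' : O} {j : ℤ} (he : CURVE_Eig hw Q e j) (he' : CURVE_Eig hw Q e' j) :
    ∃ c : ℂ, c ≠ 0 ∧ e' = c • e := by
  have := hD.inf
  obtain ⟨c, hc0, hc⟩ := CURVE_res hw he'.1 he.1 (by rw [he.2.1, he'.2.1])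
  refine ⟨c, hc0, ?_⟩
  by_contra hne
  have hx0 : e' - c • e ≠ 0 := sub_ne_zero.2 hne
  set x := e' - c • e with hx
  have hwx : w e ≠ w x := by
    rcases hc with h | h
    · exact absurd h hx0
    · rw [he.2.1]; rw [he'.2.1] at h; omega
  have hall : ∀ g : Q, CURVE_al hw (g : O ≃ₐ[ℂ] O) (w e) = CURVE_al hw (g : O ≃ₐ[ℂ] O) (w x) := by
    intro g
    apply CURVE_al_uniq hw (hD.pres _ g.2) hx0
    have h1 : (g : O ≃ₐ[ℂ] O) x - CURVE_al hw (g : O ≃ₐ[ℂ] O) (w e) • x = 0 := by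
      rw [hx, map_sub, map_smul, he.2.2 _ g.2, he'.2.2 _ g.2, he.2.1]
      module
    rw [h1]
    exact Submodule.zero_mem _
  have hfin := CURVE_fin2 hw hD he.1 hx0 hwx
  have huniv : {g : Q | CURVE_al hw (g : O ≃ₐ[ℂ] O) (w e) =
      CURVE_al hw (g : O ≃ₐ[ℂ] O) (w x)} = Set.univ := Set.eq_univ_of_forall hall
  rw [huniv] at hfin
  exact Set.infinite_univ hfin

theorem CURVE_eig_span (hw : CURVE_Val w) {Q : Subgroup (O ≃ₐ[ℂ] O)} (hD : CURVE_Diag hw Q)
    (f : O) : f ∈ Submodule.span ℂ {e : O | ∃ j, CURVE_Eig hw Q e j} := by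
  obtain ⟨V, hVfin, hfV, hV⟩ := hD.fin f
  obtain ⟨M, hM⟩ := CURVE_bdd hw V
  have key : ∀ k : ℕ, ∀ f ∈ V, (f ≠ 0 → M - w f < k) →
      f ∈ Submodule.span ℂ {e : O | ∃ j, CURVE_Eig hw Q e j} := by
    intro k
    induction k with
    | zero =>
      intro f hf h
      by_cases h0 : f = 0
      · rw [h0]; exact Submodule.zero_mem _
      · have h1 := h h0
        have h2 := hM f hf h0
        push_cast at h1
        omega
    | succ k ih =>
      intro f hf h
      by_cases h0 : f = 0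
      · rw [h0]; exact Submodule.zero_mem _
      obtain ⟨e, heV, he⟩ := CURVE_eig_exists hw hD h0 V hf hV
      obtain ⟨c, hc0, hc⟩ := CURVE_res hw h0 he.1 he.2.1.symm
      have h1 : f = (f - c • e) + c • e := by abel
      rw [h1]
      apply Submodule.add_mem
      · apply ih
        · exact V.sub_mem hf (V.smul_mem _ heV)
        · intro hne
          rcases hc with hc | hc
          · exact absurd hc hne
          · have := h h0
            push_cast at this
            omega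
      · exact Submodule.smul_mem _ _ (Submodule.subset_span ⟨_, he⟩)
  apply key (M - w f + 1).toNat f hfV
  intro h0
  have := hM f hfV h0
  omega

theorem CURVE_eig_mul (hw : CURVE_Val w) {Q : Subgroup (O ≃ₐ[ℂ] O)} (hD : CURVE_Diag hw Q)
    {e e' : O} {i j : ℤ} (he : CURVE_Eig hw Q e i) (he' : CURVE_Eig hw Q e' j) :
    CURVE_Eig hw Q (e * e') (i + j) := by
  have := hw.dom
  obtain ⟨he0, rfl, heg⟩ := he
  obtain ⟨he0', rfl, heg'⟩ := he'
  refine ⟨mul_ne_zero he0 he0', hw.mul _ _ he0 he0', ?_⟩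
  intro g hg
  rw [map_mul, heg g hg, heg' g hg, CURVE_al_mul hw (hD.pres g hg) he0 he0', smul_mul_smul_comm]

theorem CURVE_eig_one (hw : CURVE_Val w) {Q : Subgroup (O ≃ₐ[ℂ] O)} (hD : CURVE_Diag hw Q) :
    CURVE_Eig hw Q 1 0 := by
  have := hw.dom
  refine ⟨one_ne_zero, ?_, ?_⟩
  · have := hw.const 1 one_ne_zero
    rwa [map_one] at this
  · intro g hg
    rw [CURVE_al_one hw (hD.pres g hg), one_smul, map_one]

theorem CURVE_eig_pow (hw : CURVE_Val w) {Q : Subgroup (O ≃ₐ[ℂ] O)} (hD : CURVE_Diag hw Q)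
    {e : O} {i : ℤ} (he : CURVE_Eig hw Q e i) (n : ℕ) : CURVE_Eig hw Q (e ^ n) (n * i) := by
  induction n with
  | zero => simpa using CURVE_eig_one hw hD
  | succ n ih =>
    have h1 := CURVE_eig_mul hw hD ih he
    rw [pow_succ]
    have h2 : ((n + 1 : ℕ) : ℤ) * i = n * i + i := by push_cast; ring
    rw [h2]
    exact h1

theorem CURVE_eig_div (hw : CURVE_Val w) {Q : Subgroup (O ≃ₐ[ℂ] O)} (hD : CURVE_Diag hw Q)
    {e t : O} {i j : ℤ} (he : CURVE_Eig hw Q e i) (he' : CURVE_Eig hw Q (e * t) j) :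
    CURVE_Eig hw Q t (j - i) := by
  have := hw.dom
  obtain ⟨he0, rfl, heg⟩ := he
  obtain ⟨he0', rfl, heg'⟩ := he'
  have ht0 : t ≠ 0 := fun h => he0' (by rw [h, mul_zero])
  have hwt : w t = w (e * t) - w e := by rw [hw.mul _ _ he0 ht0]; ring
  refine ⟨ht0, hwt, ?_⟩
  intro g hg
  rw [← hwt]
  have h1 := heg' g hg
  rw [map_mul, heg g hg, hw.mul _ _ he0 ht0, CURVE_al_mul hw (hD.pres g hg) he0 ht0] at h1
  have h2 : CURVE_al hw g (w e) • e * g t =
      (CURVE_al hw g (w e) • e) * (CURVE_al hw g (w t) • t) := by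
    rw [h1, smul_mul_smul_comm]
  exact mul_left_cancel₀ (CURVE_smul_ne hw (CURVE_al_ne hw (hD.pres g hg) he0) he0) h2

/-- a root of an eigenvector -/
theorem CURVE_root (hw : CURVE_Val w) [IsDomain O] [IsIntegrallyClosed O]
    {Q : Subgroup (O ≃ₐ[ℂ] O)} (hD : CURVE_Diag hw Q)
    {a b f : O} (ha : a ≠ 0) (hb : b ≠ 0) (hf : f ≠ 0) {k : ℕ} (hk : k ≠ 0)
    (h : w f = k * (w a - w b)) : ∃ t, CURVE_Eig hw Q t (w a - w b) := by
  obtain ⟨Va, _, haV, hVa⟩ := hD.fin a
  obtain ⟨Vb, _, hbV, hVb⟩ := hD.fin b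
  obtain ⟨Vf, _, hfV, hVf⟩ := hD.fin f
  obtain ⟨ea, -, hea⟩ := CURVE_eig_exists hw hD ha Va haV hVa
  obtain ⟨eb, -, heb⟩ := CURVE_eig_exists hw hD hb Vb hbV hVb
  obtain ⟨ef, -, hef⟩ := CURVE_eig_exists hw hD hf Vf hfV hVf
  have h1 := CURVE_eig_pow hw hD hea k
  have h2 := CURVE_eig_mul hw hD hef (CURVE_eig_pow hw hD heb k)
  rw [h, show (k : ℤ) * (w a - w b) + k * w b = k * w a by ring] at h2
  obtain ⟨c, hc0, hc⟩ := CURVE_eig_uniq hw hD h2 h1
  have hdvd : eb ^ k ∣ ea ^ k := by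
    rw [hc]
    exact ⟨c • ef, by rw [Algebra.smul_def, Algebra.smul_def]; ring⟩
  rw [IsIntegrallyClosed.pow_dvd_pow_iff hk] at hdvd
  obtain ⟨t, ht⟩ := hdvd
  rw [ht] at hea
  exact ⟨t, CURVE_eig_div hw hD heb hea⟩

theorem CURVE_diag (hO : CurveRing O) (hw : CURVE_Val w) {Q : Subgroup (O ≃ₐ[ℂ] O)}
    (hD : CURVE_Diag hw Q) :
    Nonempty (O ≃ₐ[ℂ] Polynomial ℂ) ∨ Nonempty (O ≃ₐ[ℂ] LaurentPolynomial ℂ) := by
  have := hO.dom
  have := hO.ic
  obtain ⟨d, hd0, ⟨a, b, ha, hb, hab⟩, hmul⟩ := CURVE_cyc hw hD.neg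
  obtain ⟨f, hf, hfneg⟩ := hD.neg
  -- the eigenvector of order `-d`
  obtain ⟨m, hm⟩ := hmul f hf
  have hm0 : m < 0 := by
    by_contra hcon
    push Not at hcon
    have : 0 ≤ m * d := mul_nonneg hcon hd0.le
    omega
  obtain ⟨t, ht⟩ := CURVE_root hw hD hb ha hf (k := m.natAbs) (by omega)
    (by
      have h1 : (m.natAbs : ℤ) = -m := by omega
      rw [h1, hm, ← hab]; ring)
  have hba : w b - w a = -d := by omega
  rw [hba] at ht
  have ht_nc : ∀ c : ℂ, t ≠ algebraMap ℂ O c := by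
    intro c htc
    by_cases hc : c = 0
    · exact ht.1 (by rw [htc, hc, map_zero])
    · have := hw.const c hc
      rw [← htc, ht.2.1] at this
      omega
  have htr := CURVE_transc ht_nc
  have hinj : Function.Injective (Polynomial.aeval (R := ℂ) t) :=
    transcendental_iff_injective.1 htr
  by_cases hpos : ∃ f : O, f ≠ 0 ∧ 0 < w f
  · -- Laurent case
    right
    obtain ⟨f', hf', hf'pos⟩ := hpos
    obtain ⟨n, hn⟩ := hmul f' hf'
    have hn0 : 0 < n := by
      by_contra hcon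
      push Not at hcon
      have : n * d ≤ 0 := mul_nonpos_of_nonpos_of_nonneg hcon hd0.le
      omega
    obtain ⟨t', ht'⟩ := CURVE_root hw hD ha hb hf' (k := n.natAbs) (by omega)
      (by
        have h1 : (n.natAbs : ℤ) = n := by omega
        rw [h1, hn, ← hab])
    rw [hab] at ht'
    have h1 := CURVE_eig_mul hw hD ht ht'
    rw [neg_add_cancel] at h1
    obtain ⟨c, hc0, hc⟩ := CURVE_eig_uniq hw hD h1 (CURVE_eig_one hw hD)
    let u : Oˣ :=
      { val := t
        inv := c • t'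
        val_inv := by rw [hc, Algebra.smul_def, Algebra.smul_def]; ring
        inv_val := by rw [hc, Algebra.smul_def, Algebra.smul_def]; ring }
    let φ : LaurentPolynomial ℂ →ₐ[ℂ] O :=
      { LaurentPolynomial.eval₂ (algebraMap ℂ O) u with
        commutes' := fun r => LaurentPolynomial.eval₂_C (algebraMap ℂ O) u r }
    have hφ : ∀ p, φ p = LaurentPolynomial.eval₂ (algebraMap ℂ O) u p := fun p => rfl
    have hφinj : Function.Injective φ := by
      rw [injective_iff_map_eq_zero]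
      intro p hp
      obtain ⟨k, q, hq⟩ := LaurentPolynomial.exists_T_pow p
      have h2 : φ (Polynomial.toLaurent q) = 0 := by
        rw [hq, map_mul, hp, zero_mul]
      rw [hφ, LaurentPolynomial.eval₂_toLaurent] at h2
      have h3 : Polynomial.aeval (R := ℂ) t q = 0 := h2
      have h4 : q = 0 := hinj (by rw [h3, map_zero])
      rw [h4, map_zero] at hq
      have hT : IsUnit (LaurentPolynomial.T (k : ℤ) : LaurentPolynomial ℂ) :=
        LaurentPolynomial.isUnit_T k
      exact (hT.mul_left_eq_zero).1 hq.symm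
    have hφsurj : Function.Surjective φ := by
      intro x
      have hx := CURVE_eig_span hw hD x
      have hle : Submodule.span ℂ {e : O | ∃ j, CURVE_Eig hw Q e j} ≤
          LinearMap.range φ.toLinearMap := by
        rw [Submodule.span_le]
        rintro e ⟨j, he⟩
        obtain ⟨k, hk⟩ := hmul e he.1
        rw [he.2.1] at hk
        -- the power of `t` of order `j`
        have hex : ∃ z : O, z ∈ LinearMap.range φ.toLinearMap ∧ CURVE_Eig hw Q z j := by
          obtain ⟨l, hl | hl⟩ := Int.eq_nat_or_neg k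
          · refine ⟨t' ^ l, ⟨LaurentPolynomial.C ((c⁻¹) ^ l) * LaurentPolynomial.T (-l), ?_⟩, ?_⟩
            · change φ _ = _
              rw [hφ, map_mul, LaurentPolynomial.eval₂_C, LaurentPolynomial.eval₂_T_neg_n]
              change algebraMap ℂ O (c⁻¹ ^ l) * (c • t') ^ l = t' ^ l
              rw [Algebra.smul_def, mul_pow, ← mul_assoc, ← map_pow, ← map_mul, ← mul_pow,
                inv_mul_cancel₀ hc0, one_pow, map_one, one_mul]
            · have := CURVE_eig_pow hw hD ht' l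
              rw [hk, hl]; exact this
          · refine ⟨t ^ l, ⟨LaurentPolynomial.T l, ?_⟩, ?_⟩
            · change φ _ = _
              rw [hφ, LaurentPolynomial.eval₂_T_n]
            · have := CURVE_eig_pow hw hD ht l
              rw [hk, hl]
              rwa [neg_mul, ← mul_neg]
        obtain ⟨z, hz, hze⟩ := hex
        obtain ⟨c', -, hc'⟩ := CURVE_eig_uniq hw hD hze he
        rw [hc']
        exact Submodule.smul_mem _ _ hz
      obtain ⟨p, hp⟩ := hle hx
      exact ⟨p, hp⟩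
    exact ⟨(AlgEquiv.ofBijective φ ⟨hφinj, hφsurj⟩).symm⟩
  · left
    push Not at hpos
    refine ⟨(AlgEquiv.ofBijective (Polynomial.aeval (R := ℂ) t) ⟨hinj, ?_⟩).symm⟩
    intro x
    have hx := CURVE_eig_span hw hD x
    have hle : Submodule.span ℂ {e : O | ∃ j, CURVE_Eig hw Q e j} ≤
        LinearMap.range (Polynomial.aeval (R := ℂ) t).toLinearMap := by
      rw [Submodule.span_le]
      rintro e ⟨j, he⟩
      obtain ⟨k, hk⟩ := hmul e he.1
      have hle0 := hpos e he.1
      rw [he.2.1] at hk hle0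
      have hk0 : k ≤ 0 := by
        by_contra hcon
        push Not at hcon
        have : 0 < k * d := mul_pos hcon hd0
        omega
      have hz := CURVE_eig_pow hw hD ht k.natAbs
      have h1 : (k.natAbs : ℤ) * -d = j := by
        have : (k.natAbs : ℤ) = -k := by omega
        rw [this, hk]; ring
      rw [h1] at hz
      obtain ⟨c', -, hc'⟩ := CURVE_eig_uniq hw hD hz he
      rw [hc']
      apply Submodule.smul_mem
      exact ⟨Polynomial.X ^ k.natAbs, by simp⟩
    obtain ⟨p, hp⟩ := hle hx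
    exact ⟨p, hp⟩

end diag

/-! ### assembly -/

section assembly

variable {O : Type} [CommRing O] [Algebra ℂ O]

theorem CURVE_val (hO : CurveRing O) {n : ℕ} {w : Fin n → O → ℤ} (hP : Places O n w)
    (i : Fin n) : CURVE_Val (w i) where
  dom := hO.dom
  mul := hP.mul i
  add := hP.add i
  const := hP.const i
  res := hP.res i

theorem CURVE_fd (hO : CurveRing O) {n : ℕ} {w : Fin n → O → ℤ} (hP : Places O n w) :
    ∀ (N : ℕ) (m : Fin n → ℕ), ∑ i, m i = N →
      FiniteDimensional ℂ (⨅ i, CURVE_ge (CURVE_val hO hP i) (-(m i : ℤ)) : Submodule ℂ O) := by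
  classical
  intro N
  induction N with
  | zero =>
    intro m hm
    have hm0 : ∀ i, m i = 0 := by
      intro i
      exact (Finset.sum_eq_zero_iff.1 hm) i (Finset.mem_univ i)
    have hle : (⨅ i, CURVE_ge (CURVE_val hO hP i) (-(m i : ℤ)) : Submodule ℂ O) ≤
        Submodule.span ℂ {(1 : O)} := by
      intro f hf
      rw [Submodule.mem_iInf] at hf
      by_cases h0 : f = 0
      · rw [h0]; exact Submodule.zero_mem _
      obtain ⟨c, hc⟩ := hP.nonneg f h0 (by
        intro i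
        rcases hf i with h | h
        · exact absurd h h0
        · rw [hm0 i] at h; simpa using h)
      rw [hc, Submodule.mem_span_singleton]
      exact ⟨c, by rw [Algebra.smul_def, mul_one]⟩
    exact Submodule.finiteDimensional_of_le hle
  | succ N ih =>
    intro m hm
    have hex : ∃ i, m i ≠ 0 := by
      by_contra hcon
      push Not at hcon
      rw [Finset.sum_eq_zero (fun i _ => hcon i)] at hm
      omega
    obtain ⟨i, hi⟩ := hex
    set m' : Fin n → ℕ := Function.update m i (m i - 1) with hm'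
    have hsum : ∑ j, m' j = N := by
      have h1 := Finset.add_sum_erase Finset.univ m (Finset.mem_univ i)
      have h2 := Finset.add_sum_erase Finset.univ m' (Finset.mem_univ i)
      have h3 : ∑ j ∈ Finset.univ.erase i, m' j = ∑ j ∈ Finset.univ.erase i, m j := by
        apply Finset.sum_congr rfl
        intro j hj
        rw [hm', Function.update_of_ne (Finset.ne_of_mem_erase hj)]
      have h4 : m' i = m i - 1 := by rw [hm', Function.update_self]
      omega
    have hfd := ih m' hsum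
    set F := (⨅ j, CURVE_ge (CURVE_val hO hP j) (-(m j : ℤ)) : Submodule ℂ O) with hF
    set F' := (⨅ j, CURVE_ge (CURVE_val hO hP j) (-(m' j : ℤ)) : Submodule ℂ O) with hF'
    -- membership in the smaller space
    have hmem : ∀ f ∈ F, (f = 0 ∨ -(m i : ℤ) < w i f) → f ∈ F' := by
      intro f hf h
      rw [hF', Submodule.mem_iInf]
      intro j
      rw [hF, Submodule.mem_iInf] at hf
      by_cases hji : j = i
      · subst hji
        rcases h with h | h
        · exact Or.inl h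
        · right
          rw [hm', Function.update_self]
          omega
      · rw [hm', Function.update_of_ne hji]
        exact hf j
    have hle : ∃ f0 : O, F ≤ F' ⊔ Submodule.span ℂ {f0} := by
      by_cases hall : F ≤ F'
      · exact ⟨0, hall.trans le_sup_left⟩
      · obtain ⟨f0, hf0, hf0'⟩ := SetLike.not_le_iff_exists.1 hall
        have h00 : f0 ≠ 0 := by
          rintro rfl
          exact hf0' (Submodule.zero_mem _)
        have hw0 : w i f0 = -(m i : ℤ) := by
          have h1 : ¬ -(m i : ℤ) < w i f0 := fun h => hf0' (hmem f0 hf0 (Or.inr h))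
          have h2 := hf0
          rw [hF, Submodule.mem_iInf] at h2
          rcases h2 i with h | h
          · exact absurd h h00
          · omega
        refine ⟨f0, ?_⟩
        intro f hf
        by_cases hff : f ∈ F'
        · exact Submodule.mem_sup_left hff
        have h0 : f ≠ 0 := by
          rintro rfl
          exact hff (Submodule.zero_mem _)
        have hwf : w i f = -(m i : ℤ) := by
          have h1 : ¬ -(m i : ℤ) < w i f := fun h => hff (hmem f hf (Or.inr h))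
          have h2 := hf
          rw [hF, Submodule.mem_iInf] at h2
          rcases h2 i with h | h
          · exact absurd h h0
          · omega
        obtain ⟨c, -, hc⟩ := CURVE_res (CURVE_val hO hP i) h0 h00 (by rw [hwf, hw0])
        have h3 : f - c • f0 ∈ F' := by
          apply hmem
          · exact F.sub_mem hf (F.smul_mem _ hf0)
          · rcases hc with hc | hc
            · exact Or.inl hc
            · right; omega
        have h4 : f = (f - c • f0) + c • f0 := by abel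
        rw [h4]
        exact Submodule.add_mem_sup h3 (Submodule.smul_mem _ _ (Submodule.mem_span_singleton_self _))
    obtain ⟨f0, hf0⟩ := hle
    exact Submodule.finiteDimensional_of_le hf0

end assembly

theorem st_CURVE (hPL : ST_PLACE) : ST_CURVE := by
  intro O _ _ hO Q hQ
  classical
  obtain ⟨n, w, hP⟩ := hPL O hO
  have := hO.dom
  -- a function with a pole
  obtain ⟨t, ht⟩ := hO.nonconst
  have ht0 : t ≠ 0 := by
    rintro rfl
    exact ht 0 (by rw [map_zero])
  obtain ⟨i0, hi0⟩ : ∃ i, w i t < 0 := by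
    by_contra hcon
    push Not at hcon
    obtain ⟨c, hc⟩ := hP.nonneg t ht0 hcon
    exact ht c hc
  have hw := CURVE_val hO hP i0
  -- the subgroup preserving all places
  let Q' : Subgroup (O ≃ₐ[ℂ] O) :=
    { carrier := {g | g ∈ Q ∧ ∀ i f, f ≠ 0 → w i (g f) = w i f}
      mul_mem' := by
        rintro a b ⟨ha, ha'⟩ ⟨hb, hb'⟩
        refine ⟨Q.mul_mem ha hb, ?_⟩
        intro i f hf
        rw [AlgEquiv.mul_apply, ha' i _ (by simpa using hf), hb' i f hf]
      one_mem' := ⟨Q.one_mem, fun i f _ => rfl⟩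
      inv_mem' := by
        rintro a ⟨ha, ha'⟩
        refine ⟨Q.inv_mem ha, ?_⟩
        intro i f hf
        have h1 : a⁻¹ f ≠ 0 := by
          intro h
          exact hf ((map_eq_zero_iff _ (a⁻¹).injective).1 h)
        have h2 := ha' i (a⁻¹ f) h1
        have h3 : a (a⁻¹ f) = f := by
          rw [← AlgEquiv.mul_apply, mul_inv_cancel, AlgEquiv.one_apply]
        rw [h3] at h2
        exact h2.symm }
  have hQ'inf : Infinite Q' := by
    choose σ hσ using hP.perm
    let F : Q → (Fin n → Fin n) := fun g i => σ g i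
    obtain ⟨s, hs⟩ := Finite.exists_infinite_fiber F
    obtain ⟨g0⟩ : Nonempty (F ⁻¹' {s}) := inferInstance
    let Ψ : (F ⁻¹' {s}) → Q' := fun g => ⟨(g.1 : O ≃ₐ[ℂ] O) * (g0.1 : O ≃ₐ[ℂ] O)⁻¹,
      Q.mul_mem g.1.2 (Q.inv_mem g0.1.2), by
        intro i f hf
        have hg0 : F g0.1 = s := g0.2
        have hg : F g.1 = s := g.2
        have h1 : σ (g0.1 : O ≃ₐ[ℂ] O) i = σ (g.1 : O ≃ₐ[ℂ] O) i := by
          have h2 : F g0.1 i = F g.1 i := by rw [hg0, hg]
          exact h2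
        have h1' : (g0.1 : O ≃ₐ[ℂ] O)⁻¹ f ≠ 0 := by
          intro h
          exact hf ((map_eq_zero_iff _ ((g0.1 : O ≃ₐ[ℂ] O)⁻¹).injective).1 h)
        rw [AlgEquiv.mul_apply, hσ (g.1 : O ≃ₐ[ℂ] O) i _ h1', ← h1,
          ← hσ (g0.1 : O ≃ₐ[ℂ] O) i _ h1', ← AlgEquiv.mul_apply, mul_inv_cancel,
          AlgEquiv.one_apply]⟩
    have hΨ : Function.Injective Ψ := by
      intro a b hab
      have h1 : (a.1 : O ≃ₐ[ℂ] O) * (g0.1 : O ≃ₐ[ℂ] O)⁻¹ =
          (b.1 : O ≃ₐ[ℂ] O) * (g0.1 : O ≃ₐ[ℂ] O)⁻¹ := congrArg Subtype.val hab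
      exact Subtype.ext (Subtype.ext (mul_right_cancel h1))
    exact Infinite.of_injective Ψ hΨ
  have hfin : ∀ f : O, ∃ V : Submodule ℂ O, FiniteDimensional ℂ V ∧ f ∈ V ∧
      ∀ g ∈ Q', ∀ v ∈ V, g v ∈ V := by
    intro f
    let m : Fin n → ℕ := fun i => (w i f).natAbs
    refine ⟨⨅ i, CURVE_ge (CURVE_val hO hP i) (-(m i : ℤ)), CURVE_fd hO hP _ m rfl, ?_, ?_⟩
    · rw [Submodule.mem_iInf]
      intro i
      right
      change -((w i f).natAbs : ℤ) ≤ w i f
      omega
    · intro g hg v hv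
      rw [Submodule.mem_iInf] at hv ⊢
      intro i
      exact CURVE_aut_ge (CURVE_val hO hP i) (fun f hf => hg.2 i f hf) (hv i)
  by_cases hU : ∃ g ∈ Q', g ≠ 1 ∧ ∀ f, f ≠ 0 → g f - f ∈ CURVE_ge hw (w i0 f + 1)
  · -- unipotent case
    left
    obtain ⟨g, hg, hg1, hgu⟩ := hU
    let N : Module.End ℂ O := g.toLinearMap - LinearMap.id
    have hNf : ∀ f, N f = g f - f := fun f => rfl
    apply CURVE_unip hO g hg1 N hNf
    intro f
    obtain ⟨V, hVfin, hfV, hV⟩ := hfin f
    obtain ⟨M, hM⟩ := CURVE_bdd hw V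
    have key : ∀ k : ℕ, ∀ f ∈ V, (f ≠ 0 → M - w i0 f < k) → (N ^ k) f = 0 := by
      intro k
      induction k with
      | zero =>
        intro f hf h
        by_contra h0
        rw [pow_zero, Module.End.one_apply] at h0
        have h1 := h h0
        have h2 := hM f hf h0
        push_cast at h1
        omega
      | succ k ih =>
        intro f hf h
        rw [pow_succ, Module.End.mul_apply]
        apply ih
        · rw [hNf]; exact V.sub_mem (hV g hg f hf) hf
        · intro hne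
          by_cases h0 : f = 0
          · exfalso; apply hne; rw [h0, map_zero]
          · have h1 := h h0
            rw [hNf] at hne ⊢
            rcases hgu f h0 with h2 | h2
            · exact absurd h2 hne
            · push_cast at h1
              omega
    refine ⟨(M - w i0 f + 1).toNat, ?_⟩
    apply key _ f hfV
    intro h0
    have := hM f hfV h0
    omega
  · push Not at hU
    apply CURVE_diag hO hw (Q := Q')
    refine ⟨hQ'inf, fun g hg f hf => hg.2 i0 f hf, hfin, ⟨t, ht0, hi0⟩, ?_⟩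
    intro g hg h
    by_contra hg1
    obtain ⟨f, hf, hff⟩ := hU g hg hg1
    exact hff (h f hf)

end Pool.Agent.Helper43.RS
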