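import Pool.Agent.Helper43.RS.Spec

/-!
# Units modulo constants of a curve ring embed in a free abelian group of finite rank
-/

namespace Pool.Agent.Helper43.RS

theorem st_UNITS (hP : ST_PLACE) : ST_UNITS := by
  intro O _ _ hO
  obtain ⟨n, w, hw⟩ := hP O hO
  haveI := hO.dom
  have hmul : ∀ u u' : Oˣ, (Multiplicative.ofAdd fun i => w i ((u * u' : Oˣ) : O)) =
      (Multiplicative.ofAdd fun i => w i (u : O)) * Multiplicative.ofAdd fun i => w i (u' : O) := by
    intro u u'
    rw [← ofAdd_add]
    congr 1
    funext i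
    rw [Units.val_mul, hw.mul i _ _ u.ne_zero u'.ne_zero, Pi.add_apply]
  refine ⟨n, MonoidHom.mk' (fun u : Oˣ => Multiplicative.ofAdd fun i => w i (u : O)) hmul, ?_⟩
  intro u hu
  have hu' : (fun i => w i (u : O)) = 0 := by
    have := congrArg Multiplicative.toAdd hu
    simpa using this
  apply hw.nonneg _ u.ne_zero
  intro i
  exact le_of_eq (congrFun hu' i).symm

end Pool.Agent.Helper43.RS
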